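import Mathlib
import Pool.Agent.H28.AbsorbB

set_option autoImplicit false

namespace Pool.Agent.Results.MP_d60001_co.XiFourteen

open Finset

/-- The unit cube of dimension n. -/
def cube (n : ℕ) : Set (Fin n → ℝ) := {x | ∀ j, 0 ≤ x j ∧ x j ≤ 1}

/-- The simplex with vertices v. -/
def simplex {n : ℕ} (v : Fin (n + 1) → (Fin n → ℝ)) : Set (Fin n → ℝ) :=
  convexHull ℝ (Set.range v)

/-- The average of the n + 1 vertices. -/
noncomputable def centre {n : ℕ} (v : Fin (n + 1) → (Fin n → ℝ)) : Fin n → ℝ :=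
  ((n : ℝ) + 1)⁻¹ • ∑ i, v i

/-- The image of the simplex with vertices v under the homothety with ratio σ about the
average of its vertices. -/
noncomputable def dilate {n : ℕ} (v : Fin (n + 1) → (Fin n → ℝ)) (σ : ℝ) : Set (Fin n → ℝ) :=
  {x | ∃ y ∈ simplex v, x = centre v + σ • (y - centre v)}

/-- The numbers σ at least 1 such that the cube lies in the σ-dilate; the absorption index of the
simplex is the least of them. -/
def absorbing {n : ℕ} (v : Fin (n + 1) → (Fin n → ℝ)) : Set ℝ :=
  {σ | 1 ≤ σ ∧ cube n ⊆ dilate v σ}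

/-- The absorption indices of the nondegenerate simplices contained in the cube. -/
def indices (n : ℕ) : Set ℝ :=
  {x | ∃ v : Fin (n + 1) → (Fin n → ℝ),
    AffineIndependent ℝ v ∧ MeasureTheory.volume (simplex v) ≠ 0 ∧ simplex v ⊆ cube n ∧
      IsLeast (absorbing v) x}

theorem convex_cube (n : ℕ) : Convex ℝ (cube n) := by
  intro x hx y hy a b ha hb hab j
  have h1 := hx j
  have h2 := hy j
  simp only [Pi.add_apply, Pi.smul_apply, smul_eq_mul]
  constructor
  · nlinarith [mul_nonneg ha h1.1, mul_nonneg hb h2.1]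
  · have h3 : a * x j ≤ a * 1 := mul_le_mul_of_nonneg_left h1.2 ha
    have h4 : b * y j ≤ b * 1 := mul_le_mul_of_nonneg_left h2.2 hb
    linarith

theorem centre_eq {n : ℕ} (v : Fin (n + 1) → (Fin n → ℝ)) :
    centre v = (Finset.univ : Finset (Fin (n + 1))).centroid ℝ v := by
  unfold centre
  rw [centroid_def, affineCombination_eq_linear_combination _ _ _
    (sum_centroidWeights_eq_one_of_card_ne_zero ℝ _ (by simp))]
  simp only [centroidWeights_apply, card_univ, Fintype.card_fin]
  rw [← smul_sum]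
  push_cast
  rfl

theorem span_top {n : ℕ} {v : Fin (n + 1) → (Fin n → ℝ)} (hv : AffineIndependent ℝ v) :
    affineSpan ℝ (Set.range v) = ⊤ := by
  rw [hv.affineSpan_eq_top_iff_card_eq_finrank_add_one]
  simp

theorem lower {n : ℕ} {v : Fin (n + 1) → (Fin n → ℝ)} (hv : AffineIndependent ℝ v)
    (hc : simplex v ⊆ cube n) {σ : ℝ} (h1 : 1 ≤ σ) (hσ : cube n ⊆ dilate v σ) : (n : ℝ) ≤ σ := by
  let b : AffineBasis (Fin (n + 1)) ℝ (Fin n → ℝ) := ⟨v, hv, span_top hv⟩
  have hbv : ∀ i, b i = v i := fun i => rfl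
  have hn : (0 : ℝ) < (n : ℝ) + 1 := by positivity
  -- a coordinate which is small at the centre of the cube
  obtain ⟨j, hj⟩ : ∃ j, b.coord j (fun _ => (1 / 2 : ℝ)) ≤ 1 / ((n : ℝ) + 1) := by
    by_contra hcon
    push Not at hcon
    have h := b.sum_coord_apply_eq_one (fun _ => (1 / 2 : ℝ))
    have h2 : ∑ j : Fin (n + 1), (1 / ((n : ℝ) + 1)) < ∑ j, b.coord j (fun _ => (1 / 2 : ℝ)) :=
      sum_lt_sum_of_nonempty univ_nonempty (fun j _ => hcon j)
    rw [h, sum_const, card_univ, Fintype.card_fin, nsmul_eq_mul] at h2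
    push_cast at h2
    rw [mul_one_div_cancel hn.ne'] at h2
    exact lt_irrefl _ h2
  have hvj : v j ∈ cube n := hc (subset_convexHull ℝ _ (Set.mem_range_self j))
  have hx : (fun i => 1 - v j i) ∈ cube n := by
    intro i
    have := hvj i
    constructor <;> linarith
  obtain ⟨y, hy, hxy⟩ := hσ hx
  -- the coordinate of the opposite point
  have hx2 : (fun i => 1 - v j i) = AffineMap.lineMap (v j) (fun _ => (1 / 2 : ℝ)) (2 : ℝ) := by
    funext i
    simp [AffineMap.lineMap_apply]
    ring
  have hcx : b.coord j (fun i => 1 - v j i) = 2 * b.coord j (fun _ => (1 / 2 : ℝ)) - 1 := by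
    rw [hx2, AffineMap.apply_lineMap]
    have : b.coord j (v j) = 1 := b.coord_apply_eq j
    rw [this]
    simp [AffineMap.lineMap_apply]
    ring
  have hxy2 : (fun i => 1 - v j i) = AffineMap.lineMap (centre v) y σ := by
    rw [hxy, AffineMap.lineMap_apply]
    simp [add_comm]
  have hcc : b.coord j (centre v) = 1 / ((n : ℝ) + 1) := by
    rw [centre_eq]
    have := b.coord_apply_centroid (s := univ) (mem_univ j)
    rw [show (univ : Finset (Fin (n + 1))).centroid ℝ v = (univ : Finset (Fin (n + 1))).centroid ℝ b from rfl,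
      this]
    simp
  have hyn : 0 ≤ b.coord j y := by
    have : y ∈ convexHull ℝ (Set.range b) := hy
    rw [b.convexHull_eq_nonneg_coord] at this
    exact this j
  have hcy : b.coord j (fun i => 1 - v j i) = (1 - σ) * (1 / ((n : ℝ) + 1)) + σ * b.coord j y := by
    rw [hxy2, AffineMap.apply_lineMap, hcc]
    simp [AffineMap.lineMap_apply]
    ring
  have h3 : (1 - σ) * (1 / ((n : ℝ) + 1)) ≤ 2 * (1 / ((n : ℝ) + 1)) - 1 := by
    have h4 : 0 ≤ σ * b.coord j y := mul_nonneg (by linarith) hyn
    linarith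
  have h5 : (1 - σ) ≤ 2 - ((n : ℝ) + 1) := by
    have h6 := mul_le_mul_of_nonneg_right h3 hn.le
    have h7 : (1 - σ) * (1 / ((n : ℝ) + 1)) * ((n : ℝ) + 1) = 1 - σ := by
      rw [mul_assoc, one_div_mul_cancel hn.ne', mul_one]
    have h8 : (2 * (1 / ((n : ℝ) + 1)) - 1) * ((n : ℝ) + 1) = 2 - ((n : ℝ) + 1) := by
      rw [sub_mul, mul_assoc, one_div_mul_cancel hn.ne']; ring
    linarith
  linarith

/-- The least absorption index of a nondegenerate 14-dimensional simplex contained in the
14-dimensional unit cube is 14; it is attained. -/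
theorem result : Even 14 ∧ IsLeast (indices 14) 14 := by
  refine ⟨by decide, ?_, ?_⟩
  · refine ⟨Pool.Agent.H28.Absorb.vert, Pool.Agent.H28.Absorb.vert_indep, ?_, ?_, ?_⟩
    · have h := (interior_convexHull_nonempty_iff_affineSpan_eq_top
        (s := Set.range Pool.Agent.H28.Absorb.vert)).2 (span_top Pool.Agent.H28.Absorb.vert_indep)
      exact (MeasureTheory.Measure.measure_pos_of_nonempty_interior _ h).ne'
    · refine convexHull_min ?_ (convex_cube 14)
      rintro _ ⟨i, rfl⟩ j
      exact Pool.Agent.H28.Absorb.vert_mem i j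
    · refine ⟨⟨by norm_num, ?_⟩, ?_⟩
      · intro x hx
        have hc : centre Pool.Agent.H28.Absorb.vert = fun _ => (1 / 2 : ℝ) := by
          rw [centre_eq]; exact Pool.Agent.H28.Absorb.centroid_eq
        obtain ⟨y, hy, h⟩ := Pool.Agent.H28.Absorb.cover x hx
        exact ⟨y, hy, by rw [hc]; exact h⟩
      · rintro σ ⟨h1, h2⟩
        have := lower (n := 14) Pool.Agent.H28.Absorb.vert_indep ?_ h1 h2
        · exact_mod_cast this
        · refine convexHull_min ?_ (convex_cube 14)
          rintro _ ⟨i, rfl⟩ j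
          exact Pool.Agent.H28.Absorb.vert_mem i j
  · rintro x ⟨v, hv, -, hc, ⟨h1, h2⟩, -⟩
    have := lower (n := 14) hv hc h1 h2
    exact_mod_cast this

end Pool.Agent.Results.MP_d60001_co.XiFourteen
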